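import Pool.Agent.Work.MP_31dc3b_ag.Own.Core

/-!
The classification of the nondegenerate geproci sets without collinear triples.
-/

set_option autoImplicit false

open MvPolynomial
open scoped LinearAlgebra.Projectivization

namespace Pool.Agent.Work.MP_31dc3b_ag.Own

open Pool.Agent.Work.MP_31dc3b_ag

theorem indep_pair {x y : ℙ ℂ (Fin 4 → ℂ)} (hxy : x ≠ y) :
    LinearIndependent ℂ ![x.rep, y.rep] := by
  rw [← Projectivization.independent_pair_iff_ne, Projectivization.independent_iff] at hxy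
  have h3 : Projectivization.rep ∘ ![x, y] = ![x.rep, y.rep] := by
    funext i
    fin_cases i <;> rfl
  rw [h3] at hxy
  exact hxy

theorem indep_triple {x y w : ℙ ℂ (Fin 4 → ℂ)} (hxy : x ≠ y)
    (h : ¬ ∃ L : Submodule ℂ (Fin 4 → ℂ), Module.finrank ℂ L = 2 ∧ x.submodule ≤ L ∧
      y.submodule ≤ L ∧ w.submodule ≤ L) :
    LinearIndependent ℂ ![x.rep, y.rep, w.rep] := by
  have h4 : Set.range ![x.rep, y.rep] = {x.rep, y.rep} := by
    ext u
    simp only [Set.mem_range, Fin.exists_fin_two, Matrix.cons_val_zero, Matrix.cons_val_one,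
      Set.mem_insert_iff, Set.mem_singleton_iff]
    constructor
    · rintro (h5 | h5)
      · exact Or.inl h5.symm
      · exact Or.inr h5.symm
    · rintro (h5 | h5)
      · exact Or.inl h5.symm
      · exact Or.inr h5.symm
  have h2 : LinearIndependent ℂ (Fin.snoc (α := fun _ => Fin 4 → ℂ) ![x.rep, y.rep] w.rep) := by
    rw [linearIndependent_finSnoc]
    refine ⟨indep_pair hxy, fun hmem => h ⟨Submodule.span ℂ (Set.range ![x.rep, y.rep]), ?_, ?_, ?_, ?_⟩⟩
    · rw [finrank_span_eq_card (indep_pair hxy)]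
      simp
    · rw [sub_le, h4]
      exact Submodule.subset_span (by simp)
    · rw [sub_le, h4]
      exact Submodule.subset_span (by simp)
    · rw [sub_le]
      exact hmem
  have h5 : (Fin.snoc (α := fun _ => Fin 4 → ℂ) ![x.rep, y.rep] w.rep)
      = ![x.rep, y.rep, w.rep] := by
    funext i
    fin_cases i <;> rfl
  rw [h5] at h2
  exact h2

/-- The numerical part of the classification. -/
theorem core {κ : (Fin 3 → ℂ) →ₗ[ℂ] (Fin 4 → ℂ)} (hκ : Function.Injective κ) {a b : ℕ}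
    {Z : Finset (ℙ ℂ (Fin 4 → ℂ))} {d : ℕ} {D : MvPolynomial (Fin 4) ℂ}
    (hD : D.IsHomogeneous d) (hD0 : D ≠ 0)
    (hgep : ∀ P : ℙ ℂ (Fin 4 → ℂ), eval P.rep D ≠ 0 → ¬ P.submodule ≤ LinearMap.range κ →
      P ∉ (Z : Set (ℙ ℂ (Fin 4 → ℂ))) → TI a b (proj κ P Z) ∨ CIr a b (proj κ P Z))
    (hnd : ¬ ∃ K : Submodule ℂ (Fin 4 → ℂ), Module.finrank ℂ K = 3 ∧
      ∀ X ∈ Z, X.submodule ≤ K)
    (hnc : ∀ x ∈ Z, ∀ y ∈ Z, ∀ w ∈ Z, x ≠ y → x ≠ w → y ≠ w →
      ¬ ∃ L : Submodule ℂ (Fin 4 → ℂ), Module.finrank ℂ L = 2 ∧ x.submodule ≤ L ∧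
        y.submodule ≤ L ∧ w.submodule ≤ L) :
    a = 2 ∧ b = 2 ∧ Z.card ≤ 4 := by
  classical
  obtain ⟨w, hw⟩ := exists_not_mem κ
  set ψ : (Fin 4 → ℂ) ≃ₗ[ℂ] (Fin 4 → ℂ) :=
    LinearEquiv.ofInjectiveEndo (psi κ w) (psi_injective hκ hw) with hψdef
  have hψ : ∀ u, ψ u = psi κ w u := by
    intro u
    rw [hψdef, LinearEquiv.coe_ofInjectiveEndo]
  have hspan : ∀ c : Fin 4 → ℂ, (∀ z : Z, ∑ i, c i * ψ.symm z.1.rep i = 0) → c = 0 := by
    intro c hc
    by_contra hc0
    exact hnd (exists_plane_of_functional ψ.symm hc0 (Z := Z) (fun z hz => hc ⟨z, hz⟩))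
  have hne : Nonempty Z := by
    by_contra hcon
    rw [not_nonempty_iff] at hcon
    have h1 : (Pi.single 0 1 : Fin 4 → ℂ) = 0 := hspan _ (fun z => isEmptyElim z)
    have := congrFun h1 0
    simp at this
  obtain ⟨h, h0, hh⟩ := exists_dehom ψ hD hD0
  have hv0 : ∀ z : Z, ψ.symm z.1.rep ≠ 0 := by
    intro z hz
    exact z.1.rep_nonzero ((LinearEquiv.map_eq_zero_iff _).1 hz)
  choose i hi using fun z : Z => exists_zb_ne (hv0 z)
  have hH0 : h * ∏ z : Z, zb (ψ.symm z.1.rep) (i z) ≠ 0 :=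
    mul_ne_zero h0 (Finset.prod_ne_zero_iff.2 fun z _ => hi z)
  have hres := numeric (fun z : Z => ψ.symm z.1.rep) a b _ hH0 ?_ hspan ?_ ?_
  · rw [Fintype.card_coe] at hres
    exact hres
  · intro p hp
    rw [map_mul, map_prod] at hp
    have hp1 := left_ne_zero_of_mul hp
    have hp2 := Finset.prod_ne_zero_iff.1 (right_ne_zero_of_mul hp)
    have hne' : ψ (vec p) ≠ 0 := fun h1 => vec_ne_zero p ((LinearEquiv.map_eq_zero_iff _).1 h1)
    set P : ℙ ℂ (Fin 4 → ℂ) := Projectivization.mk ℂ (ψ (vec p)) hne' with hPdef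
    obtain ⟨s, hs⟩ := Projectivization.exists_smul_eq_mk_rep ℂ (ψ (vec p)) hne'
    have hPs : P.rep = (s : ℂ) • ψ (vec p) := hs.symm
    have hy : ∀ z : Z, (fun k => eval p (zb (ψ.symm z.1.rep) k)) ≠ 0 := by
      intro z hz
      exact hp2 z (Finset.mem_univ z) (congrFun hz (i z))
    have hP1 : eval P.rep D ≠ 0 := by
      rw [hPs, eval_smul_gen hD]
      rw [hh] at hp1
      exact mul_ne_zero (pow_ne_zero _ s.ne_zero) hp1
    have hP2 : ¬ P.submodule ≤ LinearMap.range κ := by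
      rw [sub_le, hPs]
      intro h1
      have h2 : ψ (vec p) ∈ LinearMap.range κ := by
        have h3 := Submodule.smul_mem _ (s : ℂ)⁻¹ h1
        rwa [smul_smul, inv_mul_cancel₀ s.ne_zero, one_smul] at h3
      rw [hψ, psi_apply, vec_last, one_smul] at h2
      apply hw
      have h3 := Submodule.sub_mem _ h2 (LinearMap.mem_range_self κ fun k => vec p k.castSucc)
      rwa [add_sub_cancel_left] at h3
    have hP3 : P ∉ (Z : Set (ℙ ℂ (Fin 4 → ℂ))) := by
      intro h1
      apply hy ⟨P, h1⟩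
      funext k
      have h2 : ψ.symm P.rep = (s : ℂ) • vec p := by
        rw [hPs, map_smul, ψ.symm_apply_apply]
      simp only [h2, zb, map_sub, map_mul, eval_C, eval_X, Pi.smul_apply, smul_eq_mul, vec_last,
        vec_cast, Pi.zero_apply]
      ring
    have hS : ∀ Y : ℙ ℂ (Fin 3 → ℂ), Y ∈ proj κ P Z ↔
        ∃ z : Z, ∃ t : ℂ, Y.rep = t • fun k => eval p (zb (ψ.symm z.1.rep) k) := by
      intro Y
      constructor
      · rintro ⟨X, hX, hle⟩
        exact ⟨⟨X, hX⟩, (mem_proj ψ hψ p s.ne_zero hPs X Y).1 hle⟩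
      · rintro ⟨z, ht⟩
        exact ⟨z.1, z.2, (mem_proj ψ hψ p s.ne_zero hPs z.1 Y).2 ht⟩
    rcases hgep P hP1 hP2 hP3 with h1 | h1
    · exact of_TI hy hS h1
    · exact of_CIr hy hS h1
  · intro x y hxy
    have h1 := (indep_pair (fun h2 => hxy (Subtype.ext h2)) :
      LinearIndependent ℂ ![x.1.rep, y.1.rep])
    have h2 := h1.map' ψ.symm.toLinearMap ψ.symm.ker
    have h3 : (ψ.symm.toLinearMap ∘ ![x.1.rep, y.1.rep])
        = ![ψ.symm x.1.rep, ψ.symm y.1.rep] := by
      funext k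
      fin_cases k <;> rfl
    rw [h3] at h2
    exact h2
  · intro x y w' hxy hxw hyw
    have h1 := indep_triple (w := w'.1) (fun h2 => hxy (Subtype.ext h2))
      (hnc x.1 x.2 y.1 y.2 w'.1 w'.2 (fun h2 => hxy (Subtype.ext h2))
        (fun h2 => hxw (Subtype.ext h2)) (fun h2 => hyw (Subtype.ext h2)))
    have h2 := h1.map' ψ.symm.toLinearMap ψ.symm.ker
    have h3 : (ψ.symm.toLinearMap ∘ ![x.1.rep, y.1.rep, w'.1.rep])
        = ![ψ.symm x.1.rep, ψ.symm y.1.rep, ψ.symm w'.1.rep] := by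
      funext k
      fin_cases k <;> rfl
    rw [h3] at h2
    exact h2

/-- Four points spanning three-space form a `(2,2)`-grid. -/
theorem grid {Z : Finset (ℙ ℂ (Fin 4 → ℂ))}
    (hnd : ¬ ∃ K : Submodule ℂ (Fin 4 → ℂ), Module.finrank ℂ K = 3 ∧
      ∀ X ∈ Z, X.submodule ≤ K)
    (hcard : Z.card ≤ 4) :
    Z.card = 4 ∧
    ∃ (A B : Fin 2 → Submodule ℂ (Fin 4 → ℂ)),
        (∀ i, Module.finrank ℂ (A i) = 2) ∧ (∀ j, Module.finrank ℂ (B j) = 2) ∧
        (∀ i i', i ≠ i' → A i ⊓ A i' = ⊥) ∧ (∀ j j', j ≠ j' → B j ⊓ B j' = ⊥) ∧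
        (∀ i j, ∃! X : ℙ ℂ (Fin 4 → ℂ), X.submodule ≤ A i ∧ X.submodule ≤ B j) ∧
        ∀ X : ℙ ℂ (Fin 4 → ℂ), X ∈ Z ↔ ∃ i j, X.submodule ≤ A i ∧ X.submodule ≤ B j := by
  classical
  have hspan : ∀ c : Fin 4 → ℂ, (∀ z ∈ Z, ∑ i, c i * z.rep i = 0) → c = 0 := by
    intro c hc
    by_contra hc0
    exact hnd (exists_plane_of_functional (LinearEquiv.refl ℂ _) hc0 hc)
  -- the representatives span
  have htop : (⊤ : Submodule ℂ (Fin 4 → ℂ))
      ≤ Submodule.span ℂ (Set.range (fun z : Z => z.1.rep)) := by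
    by_contra hcon
    have hlt : Submodule.span ℂ (Set.range (fun z : Z => z.1.rep)) < ⊤ := by
      rw [lt_top_iff_ne_top]
      intro h0
      exact hcon (by rw [h0])
    obtain ⟨f, hf0, hf⟩ := Submodule.exists_le_ker_of_lt_top _ hlt
    have h1 : ∀ u : Fin 4 → ℂ, f u = ∑ i, f (Pi.single i 1) * u i := by
      intro u
      have h2 : u = ∑ i, u i • (Pi.single i 1 : Fin 4 → ℂ) := by
        funext j
        simp [Finset.sum_apply, Pi.single_apply]
      conv_lhs => rw [h2, map_sum]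
      apply Finset.sum_congr rfl
      intro i _
      rw [map_smul, smul_eq_mul, mul_comm]
    have h3 : (fun i => f (Pi.single i 1)) = 0 := by
      apply hspan
      intro z hz
      rw [← h1]
      exact hf (Submodule.subset_span ⟨⟨z, hz⟩, rfl⟩)
    apply hf0
    ext u
    simp only [LinearMap.coe_comp, Function.comp_apply, LinearMap.coe_single,
      LinearMap.zero_comp, LinearMap.zero_apply]
    exact congrFun h3 u
  have hfr : Fintype.card Z = 4 := by
    have h1 : Module.finrank ℂ (Fin 4 → ℂ) ≤ Fintype.card Z := by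
      have h2 := finrank_range_le_card (R := ℂ) (fun z : Z => z.1.rep)
      rw [Set.finrank, top_le_iff.1 htop, finrank_top] at h2
      exact h2
    rw [Module.finrank_fintype_fun_eq_card, Fintype.card_fin] at h1
    rw [Fintype.card_coe] at h1 ⊢
    omega
  have hli : LinearIndependent ℂ (fun z : Z => z.1.rep) := by
    apply linearIndependent_of_top_le_span_of_card_eq_finrank htop
    rw [hfr, Module.finrank_fintype_fun_eq_card, Fintype.card_fin]
  have e : Fin 4 ≃ Z := (Fintype.equivFinOfCardEq hfr).symm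
  have hli2 : LinearIndependent ℂ (fun k : Fin 4 => (e k).1.rep) := hli.comp e e.injective
  let B : Module.Basis (Fin 4) ℂ (Fin 4 → ℂ) :=
    basisOfLinearIndependentOfCardEqFinrank hli2 (by simp)
  have hB : ∀ k, B k = (e k).1.rep := by
    intro k
    simp [B]
  have heq : ∀ (z : ℙ ℂ (Fin 4 → ℂ)) (k : Fin 4) (t : ℂ), z.rep = t • B k → z = (e k).1 := by
    intro z k t h
    rw [hB] at h
    exact rep_eq h
  have huniq : ∀ {r s u v k : Fin 4}, (k = r ∨ k = s) → (k = u ∨ k = v) →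
      (∀ l, l ≠ k → (l ≠ r ∧ l ≠ s) ∨ (l ≠ u ∧ l ≠ v)) →
      ∃! X : ℙ ℂ (Fin 4 → ℂ), X.submodule ≤ PP B r s ∧ X.submodule ≤ PP B u v := by
    intro r s u v k h1 h2 h3
    refine ⟨(e k).1, ⟨?_, ?_⟩, ?_⟩
    · rw [sub_le, ← hB]; exact B_mem_PP h1
    · rw [sub_le, ← hB]; exact B_mem_PP h2
    · rintro X ⟨h4, h5⟩
      rw [sub_le] at h4 h5
      obtain ⟨t, ht⟩ := mem_both h3 h4 h5
      exact heq X k t ht
  refine ⟨by rw [← Fintype.card_coe]; exact hfr,
    ![PP B 0 1, PP B 2 3], ![PP B 0 2, PP B 1 3], ?_, ?_, ?_, ?_, ?_, ?_⟩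
  · intro i
    fin_cases i
    · exact finrank_PP (by decide)
    · exact finrank_PP (by decide)
  · intro i
    fin_cases i
    · exact finrank_PP (by decide)
    · exact finrank_PP (by decide)
  · intro i i' hne
    fin_cases i <;> fin_cases i'
    · exact absurd rfl hne
    · exact PP_inf (by decide)
    · exact PP_inf (by decide)
    · exact absurd rfl hne
  · intro i i' hne
    fin_cases i <;> fin_cases i'
    · exact absurd rfl hne
    · exact PP_inf (by decide)
    · exact PP_inf (by decide)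
    · exact absurd rfl hne
  · intro i j
    fin_cases i <;> fin_cases j
    · exact huniq (k := 0) (by decide) (by decide) (by decide)
    · exact huniq (k := 1) (by decide) (by decide) (by decide)
    · exact huniq (k := 2) (by decide) (by decide) (by decide)
    · exact huniq (k := 3) (by decide) (by decide) (by decide)
  · intro z
    simp only [sub_le]
    constructor
    · intro hz
      obtain ⟨k, hk⟩ := e.surjective ⟨z, hz⟩
      have h1 : z.rep = B k := by rw [hB, hk]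
      rw [h1]
      fin_cases k
      · exact ⟨0, 0, B_mem_PP (by decide), B_mem_PP (by decide)⟩
      · exact ⟨0, 1, B_mem_PP (by decide), B_mem_PP (by decide)⟩
      · exact ⟨1, 0, B_mem_PP (by decide), B_mem_PP (by decide)⟩
      · exact ⟨1, 1, B_mem_PP (by decide), B_mem_PP (by decide)⟩
    · rintro ⟨i, j, h1, h2⟩
      fin_cases i <;> fin_cases j
      · obtain ⟨t, ht⟩ := mem_both (k := 0) (by decide) h1 h2
        rw [heq z _ t ht]; exact (e _).2
      · obtain ⟨t, ht⟩ := mem_both (k := 1) (by decide) h1 h2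
        rw [heq z _ t ht]; exact (e _).2
      · obtain ⟨t, ht⟩ := mem_both (k := 2) (by decide) h1 h2
        rw [heq z _ t ht]; exact (e _).2
      · obtain ⟨t, ht⟩ := mem_both (k := 3) (by decide) h1 h2
        rw [heq z _ t ht]; exact (e _).2

end Pool.Agent.Work.MP_31dc3b_ag.Own
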