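import Pool.Agent.Work.MP_31dc3b_ag.Own.Geproci

/-!
The core statement in projective terms.
-/

set_option autoImplicit false

open MvPolynomial
open scoped LinearAlgebra.Projectivization

namespace Pool.Agent.Work.MP_31dc3b_ag.Own

open Pool.Agent.Work.MP_31dc3b_ag

/-- The projection to the plane. -/
def proj (κ : (Fin 3 → ℂ) →ₗ[ℂ] (Fin 4 → ℂ)) (P : ℙ ℂ (Fin 4 → ℂ))
    (Z : Set (ℙ ℂ (Fin 4 → ℂ))) : Set (ℙ ℂ (Fin 3 → ℂ)) :=
  {Y | ∃ X ∈ Z, Submodule.map κ Y.submodule ≤ P.submodule ⊔ X.submodule}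

/-- Transverse intersection. -/
def TI (a b : ℕ) (S : Set (ℙ ℂ (Fin 3 → ℂ))) : Prop :=
  ∃ F G : MvPolynomial (Fin 3) ℂ, F.IsHomogeneous a ∧ G.IsHomogeneous b ∧
    (∀ Y : ℙ ℂ (Fin 3 → ℂ), Y ∈ S ↔ eval Y.rep F = 0 ∧ eval Y.rep G = 0) ∧
    ∀ Y ∈ S, LinearIndependent ℂ
      ![fun i => eval Y.rep (pderiv i F), fun i => eval Y.rep (pderiv i G)]

/-- Ideal theoretic complete intersection. -/
def CIr (a b : ℕ) (S : Set (ℙ ℂ (Fin 3 → ℂ))) : Prop :=
  ∃ F G : MvPolynomial (Fin 3) ℂ, F.IsHomogeneous a ∧ G.IsHomogeneous b ∧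
    ∀ (d : ℕ) (f : MvPolynomial (Fin 3) ℂ), f.IsHomogeneous d →
      ((∀ Y ∈ S, eval Y.rep f = 0) ↔ f ∈ Ideal.span {F, G})

section
variable {ι : Type*} [Fintype ι] {y : ι → Fin 3 → ℂ} {S : Set (ℙ ℂ (Fin 3 → ℂ))}

theorem vanish_iff (hne : ∀ z, y z ≠ 0)
    (hS : ∀ Y : ℙ ℂ (Fin 3 → ℂ), Y ∈ S ↔ ∃ z, ∃ t : ℂ, Y.rep = t • y z)
    {f : R} {d : ℕ} (hf : f.IsHomogeneous d) :
    (∀ z, eval (y z) f = 0) ↔ ∀ Y ∈ S, eval Y.rep f = 0 := by
  constructor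
  · intro h Y hY
    obtain ⟨z, t, ht⟩ := (hS Y).1 hY
    rw [ht, eval_smul_hom hf, h z, mul_zero]
  · intro h z
    obtain ⟨s, hs⟩ := Projectivization.exists_smul_eq_mk_rep ℂ (y z) (hne z)
    have h1 : Projectivization.mk ℂ (y z) (hne z) ∈ S := (hS _).2 ⟨z, (s : ℂ), hs.symm⟩
    have h2 := h _ h1
    rw [← hs, Units.smul_def, eval_smul_hom hf] at h2
    exact (mul_eq_zero.1 h2).resolve_left (pow_ne_zero _ s.ne_zero)

theorem of_TI [Nonempty ι] {a b : ℕ} (hne : ∀ z, y z ≠ 0)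
    (hS : ∀ Y : ℙ ℂ (Fin 3 → ℂ), Y ∈ S ↔ ∃ z, ∃ t : ℂ, Y.rep = t • y z) (h : TI a b S) :
    ∃ F G : R, F.IsHomogeneous a ∧ G.IsHomogeneous b ∧
      ∀ f : R, ∀ d, f.IsHomogeneous d →
        ((∀ z, eval (y z) f = 0) ↔ f ∈ Ideal.span {F, G}) := by
  obtain ⟨F, G, hF, hG, hFG, htr⟩ := h
  have hmk : ∀ z, ∃ s : ℂˣ, (s : ℂ) • y z = (Projectivization.mk ℂ (y z) (hne z)).rep ∧
      Projectivization.mk ℂ (y z) (hne z) ∈ S := by
    intro z
    obtain ⟨s, hs⟩ := Projectivization.exists_smul_eq_mk_rep ℂ (y z) (hne z)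
    exact ⟨s, hs, (hS _).2 ⟨z, (s : ℂ), hs.symm⟩⟩
  have hT : Transv y F G a b := by
    refine ⟨hF, hG, ?_, ?_, ?_, hne⟩
    · intro x hx hxF hxG
      obtain ⟨s, hs⟩ := Projectivization.exists_smul_eq_mk_rep ℂ x hx
      have h1 : Projectivization.mk ℂ x hx ∈ S := by
        rw [hFG, ← hs, Units.smul_def, eval_smul_hom hF, eval_smul_hom hG, hxF, hxG, mul_zero,
          mul_zero]
        exact ⟨rfl, rfl⟩
      obtain ⟨z, t, ht⟩ := (hS _).1 h1
      refine ⟨z, (s : ℂ)⁻¹ * t, ?_⟩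
      rw [mul_smul, ← ht, ← hs, Units.smul_def, smul_smul, inv_mul_cancel₀ s.ne_zero, one_smul]
    · intro z
      obtain ⟨s, hs, hmem⟩ := hmk z
      obtain ⟨h1, h2⟩ := (hFG _).1 hmem
      rw [← hs, eval_smul_hom hF] at h1
      rw [← hs, eval_smul_hom hG] at h2
      exact ⟨(mul_eq_zero.1 h1).resolve_left (pow_ne_zero _ s.ne_zero),
        (mul_eq_zero.1 h2).resolve_left (pow_ne_zero _ s.ne_zero)⟩
    · intro z
      obtain ⟨s, hs, hmem⟩ := hmk z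
      have h1 := htr _ hmem
      rw [← hs] at h1
      change LinearIndependent ℂ ![grad F ((s : ℂ) • y z), grad G ((s : ℂ) • y z)] at h1
      rw [grad_smul hF, grad_smul hG, LinearIndependent.pair_iff] at h1
      rw [LinearIndependent.pair_iff]
      intro c e hce
      have h2 := h1 (c * ((s : ℂ) ^ (a - 1))⁻¹) (e * ((s : ℂ) ^ (b - 1))⁻¹) (by
        rw [smul_smul, smul_smul, mul_assoc, mul_assoc,
          inv_mul_cancel₀ (pow_ne_zero _ s.ne_zero), inv_mul_cancel₀ (pow_ne_zero _ s.ne_zero),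
          mul_one, mul_one]
        exact hce)
      exact ⟨(mul_eq_zero.1 h2.1).resolve_right (inv_ne_zero (pow_ne_zero _ s.ne_zero)),
        (mul_eq_zero.1 h2.2).resolve_right (inv_ne_zero (pow_ne_zero _ s.ne_zero))⟩
  refine ⟨F, G, hF, hG, fun f d hf => ⟨fun hv => hT.mem inferInstance hf hv, ?_⟩⟩
  intro hmem z
  obtain ⟨A, B, rfl⟩ := Ideal.mem_span_pair.1 hmem
  rw [map_add, map_mul, map_mul, (hT.van z).1, (hT.van z).2, mul_zero, mul_zero, add_zero]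

theorem of_CIr {a b : ℕ} (hne : ∀ z, y z ≠ 0)
    (hS : ∀ Y : ℙ ℂ (Fin 3 → ℂ), Y ∈ S ↔ ∃ z, ∃ t : ℂ, Y.rep = t • y z) (h : CIr a b S) :
    ∃ F G : R, F.IsHomogeneous a ∧ G.IsHomogeneous b ∧
      ∀ f : R, ∀ d, f.IsHomogeneous d →
        ((∀ z, eval (y z) f = 0) ↔ f ∈ Ideal.span {F, G}) := by
  obtain ⟨F, G, hF, hG, hFG⟩ := h
  refine ⟨F, G, hF, hG, fun f d hf => ?_⟩
  rw [← hFG d f hf]
  exact vanish_iff hne hS hf

end

/-- The points of the projection from the centre `ψ (p, 1)`. -/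
theorem mem_proj {κ : (Fin 3 → ℂ) →ₗ[ℂ] (Fin 4 → ℂ)} {w : Fin 4 → ℂ}
    (ψ : (Fin 4 → ℂ) ≃ₗ[ℂ] (Fin 4 → ℂ)) (hψ : ∀ u, ψ u = psi κ w u) (p : Fin 3 → ℂ)
    {P : ℙ ℂ (Fin 4 → ℂ)} {s : ℂ} (hs : s ≠ 0) (hP : P.rep = s • ψ (vec p))
    (X : ℙ ℂ (Fin 4 → ℂ)) (Y : ℙ ℂ (Fin 3 → ℂ)) :
    Submodule.map κ Y.submodule ≤ P.submodule ⊔ X.submodule ↔
      ∃ t : ℂ, Y.rep = t • fun i => eval p (zb (ψ.symm X.rep) i) := by
  have hκ : ∀ x : Fin 3 → ℂ, κ x = ψ (Fin.snoc (α := fun _ => ℂ) x 0) := by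
    intro x
    rw [hψ, psi_apply]
    have h1 : (fun i : Fin 3 => (Fin.snoc (α := fun _ => ℂ) x 0 : Fin 4 → ℂ) i.castSucc) = x := by
      funext i
      exact Fin.snoc_castSucc (α := fun _ => ℂ) _ _ i
    have h2 : (Fin.snoc (α := fun _ => ℂ) x 0 : Fin 4 → ℂ) (Fin.last 3) = 0 :=
      Fin.snoc_last (α := fun _ => ℂ) _ _
    rw [h1, h2, zero_smul, add_zero]
  have hmap : Submodule.map κ Y.submodule ≤ P.submodule ⊔ X.submodule ↔
      κ Y.rep ∈ Submodule.span ℂ {P.rep} ⊔ Submodule.span ℂ {X.rep} := by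
    rw [Projectivization.submodule_eq, Projectivization.submodule_eq,
      Projectivization.submodule_eq, Submodule.map_span, Set.image_singleton,
      Submodule.span_singleton_le_iff_mem]
  rw [hmap]
  set v := ψ.symm X.rep with hv
  have hX : X.rep = ψ v := (ψ.apply_symm_apply _).symm
  constructor
  · intro h
    obtain ⟨x1, h1, x2, h2, h3⟩ := Submodule.mem_sup.1 h
    obtain ⟨α, rfl⟩ := Submodule.mem_span_singleton.1 h1
    obtain ⟨β, rfl⟩ := Submodule.mem_span_singleton.1 h2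
    rw [hκ, hP, hX, ← map_smul, ← map_smul, ← map_smul, ← map_add] at h3
    have h4 := ψ.injective h3
    refine ⟨β, ?_⟩
    funext i
    have h5 := congrFun h4 (Fin.last 3)
    have h6 := congrFun h4 i.castSucc
    rw [Fin.snoc_last (α := fun _ => ℂ)] at h5
    rw [Fin.snoc_castSucc (α := fun _ => ℂ)] at h6
    simp only [Pi.add_apply, Pi.smul_apply, smul_eq_mul, vec_last, mul_one] at h5
    simp only [Pi.add_apply, Pi.smul_apply, smul_eq_mul, vec_cast] at h6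
    simp only [Pi.smul_apply, smul_eq_mul, zb, map_sub, map_mul, eval_C, eval_X]
    linear_combination -h6 + p i * h5
  · rintro ⟨t, ht⟩
    have h1 : κ Y.rep = (-(t * v (Fin.last 3)) * s⁻¹) • P.rep + t • X.rep := by
      rw [hκ, hP, hX, smul_smul, mul_assoc, inv_mul_cancel₀ hs, mul_one, ← map_smul, ← map_smul,
        ← map_add]
      congr 1
      funext j
      refine Fin.lastCases ?_ (fun k => ?_) j
      · rw [Fin.snoc_last (α := fun _ => ℂ)]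
        simp only [Pi.add_apply, Pi.smul_apply, smul_eq_mul, vec_last]
        ring
      · rw [Fin.snoc_castSucc (α := fun _ => ℂ), ht]
        simp only [Pi.add_apply, Pi.smul_apply, smul_eq_mul, vec_cast, zb, map_sub, map_mul,
          eval_C, eval_X]
        ring
    rw [h1]
    exact Submodule.add_mem_sup (Submodule.smul_mem _ _ (Submodule.mem_span_singleton_self _))
      (Submodule.smul_mem _ _ (Submodule.mem_span_singleton_self _))

/-- The kernel of a nonzero functional is a plane. -/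
theorem exists_plane_of_functional (φ : (Fin 4 → ℂ) ≃ₗ[ℂ] (Fin 4 → ℂ)) {c : Fin 4 → ℂ}
    (hc : c ≠ 0) {Z : Finset (ℙ ℂ (Fin 4 → ℂ))}
    (h : ∀ z ∈ Z, ∑ i, c i * φ z.rep i = 0) :
    ∃ K : Submodule ℂ (Fin 4 → ℂ), Module.finrank ℂ K = 3 ∧ ∀ X ∈ Z, X.submodule ≤ K := by
  classical
  set f : Module.Dual ℂ (Fin 4 → ℂ) :=
    (∑ i, c i • (LinearMap.proj i : (Fin 4 → ℂ) →ₗ[ℂ] ℂ)) ∘ₗ φ.toLinearMap with hf
  have hfx : ∀ x, f x = ∑ i, c i * φ x i := by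
    intro x
    simp [hf]
  have hf0 : f ≠ 0 := by
    intro h0
    apply hc
    funext i
    have h1 := hfx (φ.symm (Pi.single i 1))
    rw [h0, φ.apply_symm_apply] at h1
    simpa [Pi.single_apply] using h1.symm
  refine ⟨LinearMap.ker f, ?_, ?_⟩
  · have h1 := Module.Dual.finrank_ker_add_one_of_ne_zero hf0
    rw [Module.finrank_fintype_fun_eq_card, Fintype.card_fin] at h1
    omega
  · intro X hX
    rw [sub_le, LinearMap.mem_ker, hfx]
    exact h X hX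

end Pool.Agent.Work.MP_31dc3b_ag.Own
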