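import Pool.Agent.Work.MP_31dc3b_ag.Own.Numeric
import Pool.Agent.Work.MP_31dc3b_ag.Grid

/-!
From sets of points of projective space to vectors.
-/

set_option autoImplicit false

open MvPolynomial
open scoped LinearAlgebra.Projectivization

namespace Pool.Agent.Work.MP_31dc3b_ag.Own

open Pool.Agent.Work.MP_31dc3b_ag

theorem sub_le {n : ℕ} {X : ℙ ℂ (Fin n → ℂ)} {W : Submodule ℂ (Fin n → ℂ)} :
    X.submodule ≤ W ↔ X.rep ∈ W := by
  rw [Projectivization.submodule_eq, Submodule.span_singleton_le_iff_mem]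

/-- Homogeneous polynomials in any number of variables. -/
theorem eval_smul_gen {n : ℕ} {f : MvPolynomial (Fin n) ℂ} {d : ℕ} (hf : f.IsHomogeneous d)
    (t : ℂ) (x : Fin n → ℂ) : eval (t • x) f = t ^ d * eval x f := by
  rw [eval_eq', eval_eq', Finset.mul_sum]
  apply Finset.sum_congr rfl
  intro m hm
  have hd : m.degree = d := by
    by_contra hne
    exact (mem_support_iff.1 hm) (hf.coeff_eq_zero hne)
  have h1 : ∏ i, (t • x) i ^ m i = t ^ d * ∏ i, x i ^ m i := by
    simp only [Pi.smul_apply, smul_eq_mul, mul_pow, Finset.prod_mul_distrib]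
    rw [Finset.prod_pow_eq_pow_sum, ← hd, Finsupp.degree_eq_sum]
  rw [h1]; ring

/-- Coordinates of `ℂ⁴` adapted to the plane. -/
noncomputable def psi (κ : (Fin 3 → ℂ) →ₗ[ℂ] (Fin 4 → ℂ)) (w : Fin 4 → ℂ) :
    (Fin 4 → ℂ) →ₗ[ℂ] (Fin 4 → ℂ) :=
  κ ∘ₗ LinearMap.funLeft ℂ ℂ (Fin.castSucc : Fin 3 → Fin 4)
    + (LinearMap.proj (Fin.last 3) : (Fin 4 → ℂ) →ₗ[ℂ] ℂ).smulRight w

theorem psi_apply (κ : (Fin 3 → ℂ) →ₗ[ℂ] (Fin 4 → ℂ)) (w u : Fin 4 → ℂ) :
    psi κ w u = κ (fun i => u i.castSucc) + u (Fin.last 3) • w := by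
  simp [psi, LinearMap.funLeft]
  rfl

theorem exists_not_mem (κ : (Fin 3 → ℂ) →ₗ[ℂ] (Fin 4 → ℂ)) : ∃ w, w ∉ LinearMap.range κ := by
  by_contra hcon
  push Not at hcon
  have h1 : LinearMap.range κ = ⊤ := eq_top_iff.2 fun w _ => hcon w
  have h2 := LinearMap.finrank_range_le κ
  rw [h1, finrank_top] at h2
  simp at h2

theorem psi_injective {κ : (Fin 3 → ℂ) →ₗ[ℂ] (Fin 4 → ℂ)} (hκ : Function.Injective κ)
    {w : Fin 4 → ℂ} (hw : w ∉ LinearMap.range κ) : Function.Injective (psi κ w) := by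
  rw [injective_iff_map_eq_zero]
  intro u hu
  rw [psi_apply] at hu
  have h1 : u (Fin.last 3) = 0 := by
    by_contra h2
    apply hw
    refine ⟨-(u (Fin.last 3))⁻¹ • (fun i => u i.castSucc), ?_⟩
    rw [map_smul, eq_neg_of_add_eq_zero_left hu, smul_neg, neg_smul, neg_neg, smul_smul,
      inv_mul_cancel₀ h2, one_smul]
  rw [h1, zero_smul, add_zero] at hu
  have h2 := (injective_iff_map_eq_zero κ).1 hκ _ hu
  funext i
  refine Fin.lastCases ?_ (fun j => ?_) i
  · exact h1
  · exact congrFun h2 j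

/-- The vector `(p, 1)`. -/
def vec (p : Fin 3 → ℂ) : Fin 4 → ℂ := Fin.snoc (α := fun _ => ℂ) p 1

@[simp] theorem vec_last (p : Fin 3 → ℂ) : vec p (Fin.last 3) = 1 :=
  Fin.snoc_last (α := fun _ => ℂ) _ _

@[simp] theorem vec_cast (p : Fin 3 → ℂ) (i : Fin 3) : vec p i.castSucc = p i :=
  Fin.snoc_castSucc (α := fun _ => ℂ) _ _ i

theorem vec_ne_zero (p : Fin 3 → ℂ) : vec p ≠ 0 := by
  intro h
  have := congrFun h (Fin.last 3)
  rw [vec_last] at this
  exact one_ne_zero this

/-- Dehomogenization of a form on the centres of projection. -/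
theorem exists_dehom (ψ : (Fin 4 → ℂ) ≃ₗ[ℂ] (Fin 4 → ℂ)) {d : ℕ}
    {D : MvPolynomial (Fin 4) ℂ} (hD : D.IsHomogeneous d) (hD0 : D ≠ 0) :
    ∃ h : R, h ≠ 0 ∧ ∀ p, eval p h = eval (ψ (vec p)) D := by
  classical
  set g : Fin 4 → R := fun j => ∑ i : Fin 3, C (ψ (Pi.single i.castSucc 1) j) * X i
    + C (ψ (Pi.single (Fin.last 3) 1) j) with hg
  have hgp : ∀ p : Fin 3 → ℂ, (fun j => eval p (g j)) = ψ (vec p) := by
    intro p
    have h1 : vec p = ∑ i : Fin 3, p i • (Pi.single i.castSucc 1 : Fin 4 → ℂ)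
        + (Pi.single (Fin.last 3) 1 : Fin 4 → ℂ) := by
      funext j
      refine Fin.lastCases ?_ (fun k => ?_) j
      · simp only [vec_last, Pi.add_apply, Finset.sum_apply, Pi.smul_apply, smul_eq_mul,
          Pi.single_eq_same]
        rw [Finset.sum_eq_zero]
        · rw [zero_add]
        · intro i _
          rw [Pi.single_eq_of_ne (Fin.castSucc_lt_last i).ne', mul_zero]
      · simp only [vec_cast, Pi.add_apply, Finset.sum_apply, Pi.smul_apply, smul_eq_mul]
        rw [Pi.single_eq_of_ne (Fin.castSucc_lt_last k).ne, add_zero, Finset.sum_eq_single k]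
        · rw [Pi.single_eq_same, mul_one]
        · intro i _ hik
          rw [Pi.single_eq_of_ne (fun h => hik (Fin.castSucc_injective _ h).symm), mul_zero]
        · intro h; exact absurd (Finset.mem_univ k) h
    rw [h1, map_add, map_sum]
    funext j
    simp only [hg, map_add, map_sum, map_mul, eval_C, eval_X, map_smul, Pi.add_apply,
      Finset.sum_apply, Pi.smul_apply, smul_eq_mul]
    refine congrArg₂ _ (Finset.sum_congr rfl fun i _ => mul_comm _ _) rfl
  have heval : ∀ p, eval p (aeval g D) = eval (ψ (vec p)) D := by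
    intro p
    rw [← hgp p]
    rw [aeval_def, ← eval₂_id (g := fun j => eval p (g j)) , eval₂_comp_left]
    congr 1
    ext x
    simp
  refine ⟨aeval g D, ?_, heval⟩
  intro h0
  -- a point where D and the last coordinate do not vanish
  set lam : MvPolynomial (Fin 4) ℂ := ∑ j, C (ψ.symm (Pi.single j 1) (Fin.last 3)) * X j
    with hlam
  have hlame : ∀ x, eval x lam = ψ.symm x (Fin.last 3) := by
    intro x
    have h1 : x = ∑ j, x j • (Pi.single j 1 : Fin 4 → ℂ) := by
      funext k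
      simp [Finset.sum_apply, Pi.single_apply]
    conv_rhs => rw [h1]
    simp only [hlam, map_sum, map_mul, eval_C, eval_X, map_smul, Finset.sum_apply,
      Pi.smul_apply, smul_eq_mul]
    exact Finset.sum_congr rfl fun i _ => mul_comm _ _
  have hlam0 : lam ≠ 0 := by
    intro h
    have h1 := hlame (ψ (vec 0))
    rw [h, map_zero, ψ.symm_apply_apply, vec_last] at h1
    exact zero_ne_one h1
  obtain ⟨x, hx⟩ : ∃ x, eval x (D * lam) ≠ 0 := by
    by_contra hcon
    push Not at hcon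
    apply mul_ne_zero hD0 hlam0
    apply MvPolynomial.funext
    intro x
    rw [hcon x, map_zero]
  rw [map_mul] at hx
  have hx1 := left_ne_zero_of_mul hx
  have hx2 := right_ne_zero_of_mul hx
  rw [hlame] at hx2
  set u := ψ.symm x with hu
  set p : Fin 3 → ℂ := fun i => (u (Fin.last 3))⁻¹ * u i.castSucc with hp
  have hvp : vec p = (u (Fin.last 3))⁻¹ • u := by
    funext j
    refine Fin.lastCases ?_ (fun k => ?_) j
    · rw [vec_last, Pi.smul_apply, smul_eq_mul, inv_mul_cancel₀ hx2]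
    · rw [vec_cast, Pi.smul_apply, smul_eq_mul]
  have h2 := heval p
  rw [h0, map_zero, hvp, map_smul, hu, ψ.apply_symm_apply, eval_smul_gen hD] at h2
  exact mul_ne_zero (pow_ne_zero _ (inv_ne_zero hx2)) hx1 h2.symm

theorem exists_zb_ne {v : Fin 4 → ℂ} (hv : v ≠ 0) : ∃ i, zb v i ≠ 0 := by
  by_contra hcon
  push Not at hcon
  apply hv
  have hl : v (Fin.last 3) = 0 := by
    have h1 := hcon 0
    have h2 := congrArg (eval (Pi.single 0 1)) h1
    have h3 := congrArg (eval 0) h1
    simp [zb] at h2 h3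
    rw [h3, zero_sub, neg_eq_zero] at h2
    exact h2
  funext j
  refine Fin.lastCases hl (fun k => ?_) j
  have h1 := congrArg (eval 0) (hcon k)
  simpa [zb] using h1

end Pool.Agent.Work.MP_31dc3b_ag.Own
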