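import Pool.Agent.Work.MP_31dc3b_ag.Final

/-!
Ideals of polynomials in three variables whose zeros are finitely many simple points are
radical.
-/

set_option autoImplicit false

open MvPolynomial

namespace Pool.Agent.Work.MP_31dc3b_ag.Own

/-- The polynomial ring. -/
abbrev R := MvPolynomial (Fin 3) ℂ

/-- The ideal of a point. -/
noncomputable def mI (p : Fin 3 → ℂ) : Ideal R := RingHom.ker (eval p)

theorem mem_mI {p : Fin 3 → ℂ} {f : R} : f ∈ mI p ↔ eval p f = 0 := RingHom.mem_ker

theorem sub_mem_mI (p : Fin 3 → ℂ) (j : Fin 3) : (X j - C (p j) : R) ∈ mI p := by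
  rw [mem_mI]; simp

/-- First order Taylor expansion. -/
theorem taylor (p : Fin 3 → ℂ) (g : R) :
    g - C (eval p g) - ∑ j, C (eval p (pderiv j g)) * (X j - C (p j)) ∈ mI p * mI p := by
  induction g using MvPolynomial.induction_on with
  | C a => simp
  | add f g hf hg =>
    have h1 : f + g - C (eval p (f + g))
          - ∑ j, C (eval p (pderiv j (f + g))) * (X j - C (p j))
        = (f - C (eval p f) - ∑ j, C (eval p (pderiv j f)) * (X j - C (p j)))
          + (g - C (eval p g) - ∑ j, C (eval p (pderiv j g)) * (X j - C (p j))) := by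
      simp only [map_add, add_mul, Finset.sum_add_distrib]
      ring
    rw [h1]
    exact Ideal.add_mem _ hf hg
  | mul_X g k hg =>
    have h1 : g * X k - C (eval p (g * X k))
          - ∑ j, C (eval p (pderiv j (g * X k))) * (X j - C (p j))
        = (g - C (eval p g) - ∑ j, C (eval p (pderiv j g)) * (X j - C (p j))) * X k
          + ∑ j, C (eval p (pderiv j g)) * ((X j - C (p j)) * (X k - C (p k))) := by
      have h2 : ∀ j : Fin 3, C (eval p (pderiv j (g * X k))) * (X j - C (p j) : R)
          = C (eval p (pderiv j g)) * C (p k) * (X j - C (p j))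
            + (if j = k then C (eval p g) * (X k - C (p k)) else 0) := by
        intro j
        rw [pderiv_mul, pderiv_X]
        by_cases hjk : j = k
        · subst hjk
          simp only [Pi.single_eq_same, mul_one, map_add, map_mul, eval_X, if_true]
          ring
        · simp only [Pi.single_apply, hjk, Ne.symm hjk, if_false, mul_zero, add_zero, map_mul,
            eval_X]
      simp only [h2, Finset.sum_add_distrib, Finset.sum_ite_eq', Finset.mem_univ, if_true,
        map_mul, eval_X, Fin.sum_univ_three]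
      ring
    rw [h1]
    refine Ideal.add_mem _ (Ideal.mul_mem_right _ _ hg) (Ideal.sum_mem _ fun j _ => ?_)
    exact Ideal.mul_mem_left _ _ (Ideal.mul_mem_mul (sub_mem_mI p j) (sub_mem_mI p k))

theorem mem_sq {p : Fin 3 → ℂ} {g : R} (h0 : eval p g = 0)
    (h1 : ∀ j, eval p (pderiv j g) = 0) : g ∈ mI p * mI p := by
  have := taylor p g
  simpa [h0, h1] using this

/-- The gradient of a polynomial at a point. -/
noncomputable def grad (F : R) (v : Fin 3 → ℂ) : Fin 3 → ℂ := fun i => eval v (pderiv i F)

theorem mI_le {J : Ideal R} {p : Fin 3 → ℂ} {A : Fin 3 → R} (hA : ∀ k, A k ∈ J)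
    (hp : ∀ k, eval p (A k) = 0) (hind : LinearIndependent ℂ fun k => grad (A k) p) :
    mI p ≤ J ⊔ mI p * mI p := by
  intro g hg
  rw [mem_mI] at hg
  have hspan : Submodule.span ℂ (Set.range fun k => grad (A k) p) = ⊤ :=
    hind.span_eq_top_of_card_eq_finrank' (by simp)
  have h1 : grad g p ∈ Submodule.span ℂ (Set.range fun k => grad (A k) p) := by
    rw [hspan]; trivial
  rw [Submodule.mem_span_range_iff_exists_fun] at h1
  obtain ⟨c, hc⟩ := h1
  have h2 : g - ∑ k, C (c k) * A k ∈ mI p * mI p := by
    apply mem_sq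
    · simp [hg, hp]
    · intro j
      have h3 := congrFun hc j
      simp only [Finset.sum_apply, Pi.smul_apply, smul_eq_mul, grad] at h3
      simp only [map_sub, map_sum, pderiv_C_mul, smul_eq_C_mul, map_mul, eval_C]
      rw [h3, sub_self]
  have h3 : g = ∑ k, C (c k) * A k + (g - ∑ k, C (c k) * A k) := by ring
  rw [h3]
  exact Submodule.add_mem_sup (Ideal.sum_mem _ fun k _ => Ideal.mul_mem_left _ _ (hA k)) h2

theorem exists_sep (V : Finset (Fin 3 → ℂ)) (p : Fin 3 → ℂ) :
    ∃ e : R, eval p e ≠ 0 ∧ ∀ q ∈ V, q ≠ p → eval q e = 0 := by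
  classical
  have h : ∀ q : Fin 3 → ℂ, ∃ e : R, eval p e ≠ 0 ∧ (q ≠ p → eval q e = 0) := by
    intro q
    by_cases hq : q = p
    · exact ⟨1, by simp, fun h => absurd hq h⟩
    · obtain ⟨i, hi⟩ := Function.ne_iff.1 hq
      refine ⟨X i - C (q i), ?_, fun _ => by simp⟩
      simp only [map_sub, eval_X, eval_C]
      exact fun h => hi (sub_eq_zero.1 h).symm
  choose e he1 he2 using h
  refine ⟨∏ q ∈ V, e q, ?_, ?_⟩
  · rw [map_prod, Finset.prod_ne_zero_iff]
    exact fun q _ => he1 q
  · intro q hq hqp
    rw [map_prod]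
    exact Finset.prod_eq_zero hq (he2 q hqp)

/-- An ideal with finitely many zeros, all of them simple, contains every polynomial that
vanishes at the zeros. -/
theorem mem_of_simple {J : Ideal R} (V : Finset (Fin 3 → ℂ))
    (hV : ∀ x, (∀ f ∈ J, eval x f = 0) → x ∈ V)
    (hs : ∀ p ∈ V, mI p ≤ J ⊔ mI p * mI p) {f : R} (hf : ∀ p ∈ V, eval p f = 0) : f ∈ J := by
  classical
  set I : Ideal R := vanishingIdeal ℂ (V : Set (Fin 3 → ℂ)) with hI
  have memI : ∀ g : R, g ∈ I ↔ ∀ p ∈ V, eval p g = 0 := by
    intro g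
    rw [hI, mem_vanishingIdeal_iff]
    constructor
    · intro h p hp
      have := h p (by exact_mod_cast hp)
      simpa [aeval_eq_eval] using this
    · intro h p hp
      have := h p (by exact_mod_cast hp)
      simpa [aeval_eq_eval] using this
  -- a power of I lies in J
  have hrad : I ≤ J.radical := by
    rw [← vanishingIdeal_zeroLocus_eq_radical (K := ℂ) J, hI]
    apply vanishingIdeal_anti_mono
    intro x hx
    rw [mem_zeroLocus_iff] at hx
    apply hV
    intro f hf
    have := hx f hf
    simpa [aeval_eq_eval] using this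
  obtain ⟨n, hn⟩ := Ideal.exists_pow_le_of_le_radical_of_fg hrad (IsNoetherian.noetherian I)
  have key : I ≤ J ⊔ I * I := by
    intro g hg
    by_contra hgn
    set Q : Ideal R := (J ⊔ I * I : Submodule R R).colon {g} with hQ
    have memQ : ∀ r : R, r ∈ Q ↔ r * g ∈ J ⊔ I * I := by
      intro r
      rw [hQ, Submodule.mem_colon_singleton, smul_eq_mul]
    have hQt : Q ≠ ⊤ := by
      intro h
      apply hgn
      have h1 : (1 : R) ∈ Q := by rw [h]; trivial
      rw [memQ, one_mul] at h1
      exact h1
    obtain ⟨M, hM, hQM⟩ := Ideal.exists_le_maximal Q hQt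
    obtain ⟨p, hp⟩ := isMaximal_iff_eq_vanishingIdeal_singleton.1 hM
    have hMp : ∀ r ∈ M, eval p r = 0 := by
      intro r hr
      rw [hp, mem_vanishingIdeal_singleton_iff] at hr
      simpa [aeval_eq_eval] using hr
    have hpV : p ∈ V := by
      apply hV
      intro j hj
      apply hMp
      apply hQM
      rw [memQ]
      exact Ideal.mem_sup_left (Ideal.mul_mem_right _ _ hj)
    obtain ⟨e, he1, he2⟩ := exists_sep V p
    have heI : ∀ m ∈ mI p, e * m ∈ I := by
      intro m hm
      rw [memI]
      intro q hq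
      rw [map_mul]
      by_cases hqp : q = p
      · rw [hqp, mem_mI.1 hm, mul_zero]
      · rw [he2 q hq hqp, zero_mul]
    have hee : ∀ s ∈ mI p * mI p, e * e * s ∈ I * I := by
      intro s hs
      refine Submodule.mul_induction_on hs (fun m hm n hn => ?_) (fun x y hx hy => ?_)
      · have h1 : e * e * (m * n) = (e * m) * (e * n) := by ring
        rw [h1]
        exact Ideal.mul_mem_mul (heI m hm) (heI n hn)
      · rw [mul_add]
        exact Ideal.add_mem _ hx hy
    have heQ : e * e ∈ Q := by
      rw [memQ]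
      have hgp : g ∈ J ⊔ mI p * mI p := hs p hpV (mem_mI.2 ((memI g).1 hg p hpV))
      obtain ⟨j, hj, s, hs', rfl⟩ := Submodule.mem_sup.1 hgp
      rw [mul_add]
      exact Ideal.add_mem _ (Ideal.mem_sup_left (Ideal.mul_mem_left _ _ hj))
        (Ideal.mem_sup_right (hee s hs'))
    have h2 := hMp _ (hQM heQ)
    rw [map_mul] at h2
    exact mul_ne_zero he1 he1 h2
  have key2 : ∀ k : ℕ, I ≤ J ⊔ I ^ (k + 1) := by
    intro k
    induction k with
    | zero => rw [zero_add, pow_one]; exact le_sup_right
    | succ k ih =>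
      calc I ≤ J ⊔ I * I := key
        _ ≤ J ⊔ (J ⊔ I ^ (k + 1)) * I := sup_le_sup_left (Ideal.mul_mono_left ih) _
        _ ≤ J ⊔ I ^ (k + 1 + 1) := by
          rw [Ideal.sup_mul, ← sup_assoc, pow_succ (I) (k + 1)]
          exact sup_le_sup_right (sup_le le_rfl Ideal.mul_le_left) _
  have h3 : I ≤ J := by
    refine (key2 n).trans (sup_le le_rfl ?_)
    exact (Ideal.pow_le_pow_right (Nat.le_succ n)).trans hn
  exact h3 ((memI f).2 hf)

end Pool.Agent.Work.MP_31dc3b_ag.Own
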