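import Pool.Agent.Work.MP_31dc3b_ag.Own.Trans2

/-!
The numerical conclusion, with both degrees.
-/

set_option autoImplicit false

open MvPolynomial

namespace Pool.Agent.Work.MP_31dc3b_ag.Own

open Pool.Agent.Work.MP_31dc3b_ag

/-- The numerical conclusion for a nondegenerate geproci configuration without collinear
triples. -/
theorem numeric {ι : Type*} [Fintype ι] (Z : ι → Fin 4 → ℂ) (a b : ℕ) (h : R) (h0 : h ≠ 0)
    (hgep : ∀ p : Fin 3 → ℂ, eval p h ≠ 0 →
      ∃ F G : R, F.IsHomogeneous a ∧ G.IsHomogeneous b ∧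
        ∀ f : R, ∀ d, f.IsHomogeneous d → ((∀ z : ι,
          eval (fun i : Fin 3 => eval p (zb (Z z) i)) f = 0) ↔ f ∈ Ideal.span {F, G}))
    (hspan : ∀ c : Fin 4 → ℂ, (∀ z, ∑ i, c i * Z z i = 0) → c = 0)
    (ind2 : ∀ x y : ι, x ≠ y → LinearIndependent ℂ ![Z x, Z y])
    (ind3 : ∀ x y w : ι, x ≠ y → x ≠ w → y ≠ w → LinearIndependent ℂ ![Z x, Z y, Z w]) :
    a = 2 ∧ b = 2 ∧ Fintype.card ι ≤ 4 := by
  classical
  have hne : Nonempty ι := by
    by_contra hcon
    rw [not_nonempty_iff] at hcon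
    have h1 : (Pi.single 0 1 : Fin 4 → ℂ) = 0 := hspan _ (fun z => isEmptyElim z)
    have := congrFun h1 0
    simp at this
  have two : ∀ z : ι, ∃ w, w ≠ z := by
    intro z
    by_contra hcon
    push Not at hcon
    obtain ⟨c, hc0, hc⟩ := exists_kill (Z z)
    exact hc0 (hspan c (fun w => by rw [hcon w]; exact hc))
  -- the enlarged discriminant
  have hminor : ∀ z w : ι, z ≠ w → ∃ i j : Fin 3,
      zb (Z z) i * zb (Z w) j - zb (Z z) j * zb (Z w) i ≠ 0 := by
    intro z w hzw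
    have hX : Irreducible (X 0 : R) := X_prime.irreducible
    obtain ⟨i, j, hij⟩ := exists_minor hX (ind2 z w hzw)
    exact ⟨i, j, fun h0 => hij (by rw [h0]; exact dvd_zero _)⟩
  have hM : ∀ z w : ι, ∃ M : R, M ≠ 0 ∧ (z ≠ w → ∃ i j : Fin 3,
      M = zb (Z z) i * zb (Z w) j - zb (Z z) j * zb (Z w) i) := by
    intro z w
    by_cases hzw : z = w
    · exact ⟨1, one_ne_zero, fun h0 => absurd hzw h0⟩
    · obtain ⟨i, j, hij⟩ := hminor z w hzw
      exact ⟨_, hij, fun _ => ⟨i, j, rfl⟩⟩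
  choose M hM0 hM1 using hM
  set H : R := h * ∏ z, ∏ w, M z w with hH
  have hH0 : H ≠ 0 := by
    apply mul_ne_zero h0
    rw [Finset.prod_ne_zero_iff]
    intro z _
    rw [Finset.prod_ne_zero_iff]
    intro w _
    exact hM0 z w
  have hCI : ∀ p, eval p H ≠ 0 → ∃ F G : R,
      CI (fun (z : ι) i => eval p (zb (Z z) i)) F G a b := by
    intro p hp
    rw [hH, map_mul] at hp
    have hp1 := left_ne_zero_of_mul hp
    have hp2 := right_ne_zero_of_mul hp
    obtain ⟨F, G, hF, hG, hFG⟩ := hgep p hp1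
    have np : ∀ z w : ι, z ≠ w → ∃ i j, eval p (zb (Z z) i) * eval p (zb (Z w) j)
        ≠ eval p (zb (Z z) j) * eval p (zb (Z w) i) := by
      intro z w hzw
      obtain ⟨i, j, hij⟩ := hM1 z w hzw
      refine ⟨i, j, fun heq => ?_⟩
      rw [map_prod, Finset.prod_ne_zero_iff] at hp2
      have h1 := hp2 z (Finset.mem_univ z)
      rw [map_prod, Finset.prod_ne_zero_iff] at h1
      apply h1 w (Finset.mem_univ w)
      rw [hij, map_sub, map_mul, map_mul, heq, sub_self]
    refine ⟨F, G, hF, hG, ?_, np, ?_⟩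
    · exact hFG
    · intro z
      obtain ⟨w, hw⟩ := two z
      obtain ⟨i, j, hij⟩ := np w z hw
      by_contra hcon
      push Not at hcon
      apply hij
      rw [hcon i, hcon j, mul_zero, mul_zero]
  -- degrees at least two
  obtain ⟨p0, hp0⟩ := exists_eval_ne hH0
  obtain ⟨F0, G0, hFG0⟩ := hCI p0 hp0
  have ha1 : 1 ≤ a := hFG0.one_le_left
  have hb1 : 1 ≤ b := hFG0.symm.one_le_left
  have hdeg : ∀ (F : R), F ≠ 0 → F.IsHomogeneous 1 →
      (∀ z, eval (fun i => eval p0 (zb (Z z) i)) F = 0) → False := by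
    intro F hF0 hF hz
    obtain ⟨u, rfl⟩ := hom_one hF
    set c : Fin 4 → ℂ := Fin.snoc (α := fun _ => ℂ) u (-∑ i, u i * p0 i) with hc
    have hc1 : ∀ i : Fin 3, c i.castSucc = u i :=
      fun i => Fin.snoc_castSucc (α := fun _ => ℂ) _ _ i
    have hc2 : c (Fin.last 3) = -∑ i, u i * p0 i := Fin.snoc_last (α := fun _ => ℂ) _ _
    have hc0 : c = 0 := by
      apply hspan
      intro z
      have h1 := hz z
      rw [eval_linf] at h1
      rw [Fin.sum_univ_castSucc, hc2]
      simp only [hc1, zb, map_sub, map_mul, eval_C, eval_X, Fin.sum_univ_three] at h1 ⊢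
      linear_combination h1
    apply hF0
    have hu : u = 0 := by
      funext i
      rw [← hc1, hc0]; rfl
    rw [hu]
    simp [linf]
  have ha2 : 2 ≤ a := by
    by_contra hcon
    have ha : a = 1 := by omega
    subst ha
    refine hdeg F0 (hFG0.ne_zero_left hb1) hFG0.hF ?_
    rw [hFG0.hI F0 1 hFG0.hF]
    exact Ideal.subset_span (by simp)
  have hb2 : 2 ≤ b := by
    by_contra hcon
    have hb : b = 1 := by omega
    subst hb
    refine hdeg G0 (hFG0.symm.ne_zero_left ha1) hFG0.hG ?_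
    rw [hFG0.hI G0 1 hFG0.hG]
    exact Ideal.subset_span (by simp)
  have hcard := hFG0.card_le ha1 hb1
  obtain ⟨a, rfl⟩ := Nat.exists_eq_add_of_le' ha2
  obtain ⟨b, rfl⟩ := Nat.exists_eq_add_of_le' hb2
  -- the configuration
  have hconf : Conf Z (a + b) H := by
    refine ⟨hH0, hspan, ind3, ind2, ?_, ?_, ?_⟩
    · intro p hp
      obtain ⟨F, G, hFG⟩ := hCI p hp
      obtain ⟨z0⟩ := hne
      obtain ⟨c, hc, hcz⟩ := hFG.exists_rel ha2 hb2 (e := a + b + 1) (by omega) z0
      refine ⟨c, ?_, mem_RelS_iff.1 hc⟩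
      rintro rfl
      exact hcz rfl
    · intro p hp c hc0 hc z
      obtain ⟨F, G, hFG⟩ := hCI p hp
      exact hFG.rel_full ha2 hb2 (e := a + b + 1) (by omega) hc hc0 z
    · intro p hp V hV
      obtain ⟨F, G, hFG⟩ := hCI p hp
      exact hFG.rel_dep ha2 hb2 (e := a + b) (by omega) V hV
  have hge := hconf.card_ge two
  have hab : a = 0 ∧ b = 0 := by
    have h1 : (a + b + 2) * (a + b + 3) + 2 ≤ 2 * ((a + 2) * (b + 2)) := by omega
    constructor <;> nlinarith
  obtain ⟨rfl, rfl⟩ := hab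
  exact ⟨rfl, rfl, by simpa using hcard⟩

end Pool.Agent.Work.MP_31dc3b_ag.Own
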