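import Pool.Agent.Work.MP_31dc3b_ag.Own.Local

/-!
A finite set of points of the plane which is the transverse intersection of two curves is an
ideal theoretic complete intersection.
-/

set_option autoImplicit false

open MvPolynomial

namespace Pool.Agent.Work.MP_31dc3b_ag.Own

/-- The curves `F = 0` and `G = 0` meet exactly in the points `y z`, transversally. -/
structure Transv {ι : Type*} (y : ι → Fin 3 → ℂ) (F G : R) (a b : ℕ) : Prop where
  hF : F.IsHomogeneous a
  hG : G.IsHomogeneous b
  zer : ∀ x : Fin 3 → ℂ, x ≠ 0 → eval x F = 0 → eval x G = 0 → ∃ z, ∃ t : ℂ, x = t • y z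
  van : ∀ z, eval (y z) F = 0 ∧ eval (y z) G = 0
  tr : ∀ z, LinearIndependent ℂ ![grad F (y z), grad G (y z)]
  nz : ∀ z, y z ≠ 0

section
variable {ι : Type*} {y : ι → Fin 3 → ℂ} {F G : R} {a b : ℕ}

theorem grad_smul {F : R} {a : ℕ} (hF : F.IsHomogeneous a) (t : ℂ) (x : Fin 3 → ℂ) :
    grad F (t • x) = t ^ (a - 1) • grad F x := by
  funext i
  simp only [grad, Pi.smul_apply, smul_eq_mul]
  exact eval_smul_hom (hF.pderiv) t x

theorem euler {F : R} {a : ℕ} (hF : F.IsHomogeneous a) (x : Fin 3 → ℂ) :
    ∑ i, x i * grad F x i = a * eval x F := by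
  have h := hF.sum_X_mul_pderiv
  have h2 := congrArg (eval x) h
  simpa [grad] using h2

/-- Two curves through a point with a common factor through the point are not transverse. -/
theorem not_common {D F' G' : R} {x : Fin 3 → ℂ} (hD : eval x D = 0) :
    ¬ LinearIndependent ℂ ![grad (D * F') x, grad (D * G') x] := by
  intro h
  have h1 : grad (D * F') x = eval x F' • grad D x := by
    funext i
    simp only [grad, pderiv_mul, map_add, map_mul, hD, zero_mul, add_zero, Pi.smul_apply,
      smul_eq_mul]
    ring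
  have h2 : grad (D * G') x = eval x G' • grad D x := by
    funext i
    simp only [grad, pderiv_mul, map_add, map_mul, hD, zero_mul, add_zero, Pi.smul_apply,
      smul_eq_mul]
    ring
  rw [h1, h2, LinearIndependent.pair_iff] at h
  by_cases h3 : eval x F' = 0
  · have h4 := h 1 0 (by rw [h3]; simp)
    exact one_ne_zero h4.1
  · have h4 := h (eval x G') (-eval x F') (by rw [smul_smul, smul_smul, ← add_smul]; ring_nf; simp)
    exact h3 (neg_eq_zero.1 h4.2)

theorem Transv.isRelPrime (h : Transv y F G a b) : IsRelPrime F G := by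
  intro D hDF hDG
  obtain ⟨F', hF'⟩ := hDF
  obtain ⟨G', hG'⟩ := hDG
  -- the common factor has no zero but the origin
  have hz : ∀ x : Fin 3 → ℂ, x ≠ 0 → eval x D ≠ 0 := by
    intro x hx hD
    obtain ⟨z, t, rfl⟩ := h.zer x hx (by rw [hF', map_mul, hD, zero_mul])
      (by rw [hG', map_mul, hD, zero_mul])
    have ht : t ≠ 0 := by
      rintro rfl
      exact hx (zero_smul _ _)
    have h1 := h.tr z
    apply not_common (F' := F') (G' := G') hD
    rw [← hF', ← hG', grad_smul h.hF, grad_smul h.hG]
    rw [LinearIndependent.pair_iff] at h1 ⊢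
    intro s u hsu
    rw [smul_smul, smul_smul] at hsu
    obtain ⟨h2, h3⟩ := h1 _ _ hsu
    exact ⟨(mul_eq_zero.1 h2).resolve_right (pow_ne_zero _ ht),
      (mul_eq_zero.1 h3).resolve_right (pow_ne_zero _ ht)⟩
  -- so every variable is in the radical of (D)
  have hrad : ∀ i : Fin 3, ∃ n : ℕ, D ∣ X i ^ n := by
    intro i
    have h1 : (X i : R) ∈ (Ideal.span {D}).radical := by
      rw [← vanishingIdeal_zeroLocus_eq_radical (K := ℂ), mem_vanishingIdeal_iff]
      intro x hx
      rw [mem_zeroLocus_iff] at hx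
      have h2 := hx D (Ideal.subset_span rfl)
      rw [aeval_eq_eval] at h2
      have h3 : x = 0 := by
        by_contra h4
        exact hz x h4 (by simpa using h2)
      rw [h3]
      simp
    obtain ⟨n, hn⟩ := h1
    exact ⟨n, Ideal.mem_span_singleton.1 hn⟩
  obtain ⟨n, hn⟩ := hrad 0
  obtain ⟨m, hm⟩ := hrad 1
  have h01 : IsRelPrime (X 0 ^ n : R) (X 1 ^ m) := by
    apply IsRelPrime.pow
    rw [(X_prime (R := ℂ) (i := (0 : Fin 3))).irreducible.isRelPrime_iff_not_dvd]
    rw [X_dvd_X]
    decide
  exact h01 hn hm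

end

end Pool.Agent.Work.MP_31dc3b_ag.Own
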