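import Pool.Agent.Work.MP_31dc3b_ag.Own.Trans

/-!
A finite set of points of the plane which is the transverse intersection of two curves is an
ideal theoretic complete intersection, second part.
-/

set_option autoImplicit false

open MvPolynomial

namespace Pool.Agent.Work.MP_31dc3b_ag.Own

theorem hc_mem {F G : R} {a b : ℕ} (hF : F.IsHomogeneous a) (hG : G.IsHomogeneous b)
    (A B : R) (e : ℕ) :
    homogeneousComponent e (A * F + B * G) ∈ Ideal.span {F, G} := by
  rw [map_add, hc_mul hF, hc_mul hG]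
  refine Ideal.add_mem _ ?_ ?_
  · split_ifs
    · exact Ideal.mul_mem_left _ _ (Ideal.subset_span (by simp))
    · exact Ideal.zero_mem _
  · split_ifs
    · exact Ideal.mul_mem_left _ _ (Ideal.subset_span (by simp))
    · exact Ideal.zero_mem _

/-- Homogenization of a membership in the chart where a variable is one. -/
theorem homogenize {F G f : R} {a b d : ℕ} (hF : F.IsHomogeneous a) (hG : G.IsHomogeneous b)
    (hf : f.IsHomogeneous d) (i : Fin 3) {A B D : R}
    (h : f = A * F + B * G + D * (X i - C 1)) :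
    ∃ n : ℕ, X i ^ n * f ∈ Ideal.span {F, G} := by
  set hc : ℕ → R → R := fun e g => homogeneousComponent e g with hhc
  have hf0 : ∀ e, hc e f = if e = d then f else 0 := by
    intro e
    rw [hhc]
    simp only
    have hm : f ∈ homogeneousSubmodule (Fin 3) ℂ d := hf
    rw [homogeneousComponent_of_mem hm]
  have hX : (X i : R).IsHomogeneous 1 := isHomogeneous_X _ _
  have hD : ∀ e, hc e f = hc e (A * F + B * G)
      + ((if 1 ≤ e then hc (e - 1) D * X i else 0) - hc e D) := by
    intro e
    conv_lhs => rw [h]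
    simp only [hhc, map_add, mul_sub, map_sub, C_1, mul_one]
    rw [hc_mul hX]
  have step : ∀ N : ℕ, (if d ≤ N then X i ^ (N - d) * f else 0) + hc N D
      ∈ Ideal.span {F, G} := by
    intro N
    induction N with
    | zero =>
      have h1 := hD 0
      rw [hf0] at h1
      have h2 : (if d ≤ 0 then X i ^ (0 - d) * f else 0) = (if (0 : ℕ) = d then f else 0) := by
        by_cases hd : d = 0
        · subst hd; simp
        · rw [if_neg (by omega), if_neg (by omega)]
      rw [h2, h1]
      have h3 : hc 0 (A * F + B * G) + ((if 1 ≤ 0 then hc (0 - 1) D * X i else 0) - hc 0 D)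
          + hc 0 D = hc 0 (A * F + B * G) := by
        rw [if_neg (by omega)]; ring
      rw [h3]
      exact hc_mem hF hG A B 0
    | succ N ih =>
      have h1 := hD (N + 1)
      rw [hf0, if_pos (show 1 ≤ N + 1 by omega), Nat.add_sub_cancel] at h1
      have h2 : (if d ≤ N + 1 then X i ^ (N + 1 - d) * f else 0)
          = X i * (if d ≤ N then X i ^ (N - d) * f else 0) + (if N + 1 = d then f else 0) := by
        by_cases hd : d ≤ N
        · rw [if_pos (by omega), if_pos hd, if_neg (by omega),
            show N + 1 - d = (N - d) + 1 by omega, pow_succ]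
          ring
        · by_cases hd2 : N + 1 = d
          · rw [if_pos (by omega), if_neg hd, if_pos hd2, ← hd2]
            simp
          · rw [if_neg (by omega), if_neg hd, if_neg hd2]
            simp
      rw [h2, h1]
      have h3 : X i * (if d ≤ N then X i ^ (N - d) * f else 0)
          + (hc (N + 1) (A * F + B * G) + (hc N D * X i - hc (N + 1) D)) + hc (N + 1) D
          = X i * ((if d ≤ N then X i ^ (N - d) * f else 0) + hc N D)
            + hc (N + 1) (A * F + B * G) := by ring
      rw [h3]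
      exact Ideal.add_mem _ (Ideal.mul_mem_left _ _ ih) (hc_mem hF hG A B _)
  refine ⟨(D.totalDegree + 1 + d) - d, ?_⟩
  have h4 := step (D.totalDegree + 1 + d)
  rw [if_pos (by omega)] at h4
  have h5 : hc (D.totalDegree + 1 + d) D = 0 := by
    rw [hhc]
    exact homogeneousComponent_eq_zero _ _ (by omega)
  rw [h5, add_zero] at h4
  exact h4

theorem mono_colon {n0 n1 n2 : ℕ} {c : R}
    (h : X 2 ^ n2 * c ∈ Ideal.span {(X 0 ^ n0 : R), X 1 ^ n1}) :
    c ∈ Ideal.span {(X 0 ^ n0 : R), X 1 ^ n1} := by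
  classical
  have hset : ({(X 0 ^ n0 : R), X 1 ^ n1} : Set R)
      = (fun s => monomial s (1 : ℂ)) '' {Finsupp.single 0 n0, Finsupp.single 1 n1} := by
    rw [Set.image_pair, X_pow_eq_monomial, X_pow_eq_monomial]
  rw [hset, mem_ideal_span_monomial_image] at h ⊢
  intro m hm
  have h1 : m + Finsupp.single 2 n2 ∈ (X 2 ^ n2 * c).support := by
    rw [mem_support_iff, X_pow_eq_monomial, add_comm m, coeff_monomial_mul, one_mul]
    exact mem_support_iff.1 hm
  obtain ⟨s, hs, hle⟩ := h _ h1
  refine ⟨s, hs, ?_⟩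
  rcases hs with rfl | hs
  · intro k
    have := hle k
    by_cases hk : k = 0
    · subst hk
      simpa using this
    · rw [Finsupp.single_eq_of_ne hk]; exact Nat.zero_le _
  · rw [Set.mem_singleton_iff] at hs
    subst hs
    intro k
    have := hle k
    by_cases hk : k = 1
    · subst hk
      simpa using this
    · rw [Finsupp.single_eq_of_ne hk]; exact Nat.zero_le _

theorem relPrime_X {i j : Fin 3} (hij : i ≠ j) (n m : ℕ) :
    IsRelPrime (X i ^ n : R) (X j ^ m) := by
  apply IsRelPrime.pow
  rw [(X_prime (R := ℂ) (i := i)).irreducible.isRelPrime_iff_not_dvd]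
  rw [X_dvd_X]
  exact hij

/-- The unmixedness theorem for two relatively prime forms. -/
theorem unmixed {F G f : R} (hFG : IsRelPrime F G) (hF0 : F ≠ 0) {n0 n1 n2 : ℕ}
    (h0 : X 0 ^ n0 * f ∈ Ideal.span {F, G}) (h1 : X 1 ^ n1 * f ∈ Ideal.span {F, G})
    (h2 : X 2 ^ n2 * f ∈ Ideal.span {F, G}) : f ∈ Ideal.span {F, G} := by
  obtain ⟨A0, B0, e0⟩ := Ideal.mem_span_pair.1 h0
  obtain ⟨A1, B1, e1⟩ := Ideal.mem_span_pair.1 h1
  obtain ⟨A2, B2, e2⟩ := Ideal.mem_span_pair.1 h2
  -- comparison of two representations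
  have cmp : ∀ (U V A B A' B' : R), A * F + B * G = U * f → A' * F + B' * G = V * f →
      ∃ K, V * B - U * B' = K * F ∧ V * A - U * A' = -(K * G) := by
    intro U V A B A' B' h3 h4
    have h5 : (V * A - U * A') * F = -((V * B - U * B') * G) := by
      linear_combination V * h3 - U * h4
    have h6 : F ∣ (V * B - U * B') * G := by
      refine ⟨-(V * A - U * A'), ?_⟩
      linear_combination h5
    obtain ⟨K, hK⟩ := hFG.dvd_of_dvd_mul_right h6
    refine ⟨K, by rw [hK]; ring, ?_⟩
    apply mul_right_cancel₀ hF0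
    rw [h5, hK]
    ring
  obtain ⟨c01, hB01, hA01⟩ := cmp _ _ _ _ _ _ e0 e1
  obtain ⟨c02, hB02, hA02⟩ := cmp _ _ _ _ _ _ e0 e2
  obtain ⟨c12, hB12, hA12⟩ := cmp _ _ _ _ _ _ e1 e2
  have hcoc : X 2 ^ n2 * c01 = X 1 ^ n1 * c02 - X 0 ^ n0 * c12 := by
    apply mul_right_cancel₀ hF0
    linear_combination -(X 2 ^ n2) * hB01 + X 1 ^ n1 * hB02 - X 0 ^ n0 * hB12
  have hc01 : c01 ∈ Ideal.span {(X 0 ^ n0 : R), X 1 ^ n1} := by
    apply mono_colon (n2 := n2)
    rw [hcoc, Ideal.mem_span_pair]
    exact ⟨-c12, c02, by ring⟩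
  obtain ⟨D1, D0, hD⟩ := Ideal.mem_span_pair.1 hc01
  -- c01 = D1 * X0^n0 + D0 * X1^n1
  have h3 : X 1 ^ n1 * (B0 - D0 * F) = X 0 ^ n0 * (B1 + D1 * F) := by
    rw [← hD] at hB01
    linear_combination hB01
  have h4 : X 1 ^ n1 * (A0 + D0 * G) = X 0 ^ n0 * (A1 - D1 * G) := by
    rw [← hD] at hA01
    linear_combination hA01
  have hrp := relPrime_X (i := 0) (j := 1) (by decide) n0 n1
  obtain ⟨H0, hH0⟩ : (X 0 ^ n0 : R) ∣ B0 - D0 * F :=
    hrp.dvd_of_dvd_mul_left ⟨_, h3⟩
  obtain ⟨K0, hK0⟩ : (X 0 ^ n0 : R) ∣ A0 + D0 * G :=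
    hrp.dvd_of_dvd_mul_left ⟨_, h4⟩
  rw [Ideal.mem_span_pair]
  refine ⟨K0, H0, ?_⟩
  have hX0 : (X 0 ^ n0 : R) ≠ 0 := pow_ne_zero _ (X_ne_zero _)
  apply mul_left_cancel₀ hX0
  linear_combination e0 - F * hK0 - G * hH0

section
variable {ι : Type*} [Fintype ι] {y : ι → Fin 3 → ℂ} {F G : R} {a b : ℕ}

theorem Transv.chart (h : Transv y F G a b) (i : Fin 3) {f : R} {d : ℕ}
    (hf : f.IsHomogeneous d) (hv : ∀ z, eval (y z) f = 0) :
    ∃ n : ℕ, X i ^ n * f ∈ Ideal.span {F, G} := by
  classical
  set J : Ideal R := Ideal.span {F, G, X i - C 1} with hJ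
  set V : Finset (Fin 3 → ℂ) :=
    (Finset.univ.filter fun z => y z i ≠ 0).image fun z => (y z i)⁻¹ • y z with hVdef
  have hFJ : F ∈ J := Ideal.subset_span (by simp)
  have hGJ : G ∈ J := Ideal.subset_span (by simp)
  have hXJ : (X i - C 1 : R) ∈ J := Ideal.subset_span (by simp)
  have hfJ : f ∈ J := by
    apply mem_of_simple (J := J) V
    · intro x hx
      have h1 : eval x (X i - C 1 : R) = 0 := hx _ hXJ
      have h2 : x i = 1 := by
        simp only [map_sub, eval_X, eval_C] at h1
        exact sub_eq_zero.1 h1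
      have h3 : x ≠ 0 := by
        rintro rfl
        simp at h2
      obtain ⟨z, t, hzt⟩ := h.zer x h3 (hx _ hFJ) (hx _ hGJ)
      have h4 : t * y z i = 1 := by
        rw [← h2, hzt]; rfl
      rw [hVdef, Finset.mem_image]
      refine ⟨z, ?_, ?_⟩
      · rw [Finset.mem_filter]
        exact ⟨Finset.mem_univ _, right_ne_zero_of_mul_eq_one h4⟩
      · rw [hzt, ← eq_inv_of_mul_eq_one_left h4]
    · intro p hp
      rw [hVdef, Finset.mem_image] at hp
      obtain ⟨z, hz, rfl⟩ := hp
      rw [Finset.mem_filter] at hz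
      have hzi := hz.2
      set t : ℂ := (y z i)⁻¹ with ht
      have ht0 : t ≠ 0 := inv_ne_zero hzi
      have hpi : (t • y z) i = 1 := by
        simp [ht, hzi]
      have hFp : eval (t • y z) F = 0 := by
        rw [eval_smul_hom h.hF, (h.van z).1, mul_zero]
      have hGp : eval (t • y z) G = 0 := by
        rw [eval_smul_hom h.hG, (h.van z).2, mul_zero]
      apply mI_le (A := ![F, G, X i - C 1])
      · intro k
        fin_cases k
        · exact hFJ
        · exact hGJ
        · exact hXJ
      · intro k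
        fin_cases k
        · exact hFp
        · exact hGp
        · simp only [Fin.reduceFinMk, Matrix.cons_val, map_sub, eval_X, eval_C]
          rw [hpi, sub_self]
      · have hgX : grad (X i - C 1 : R) (t • y z) = Pi.single i 1 := by
          funext j
          simp only [grad, map_sub, pderiv_X, pderiv_C, sub_zero]
          by_cases hji : j = i
          · subst hji; simp
          · simp [Pi.single_apply, hji, Ne.symm hji]
        rw [Fintype.linearIndependent_iff]
        intro g hg
        have hg' : g 0 • grad F (t • y z) + g 1 • grad G (t • y z)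
            + g 2 • (Pi.single i (1 : ℂ) : Fin 3 → ℂ) = 0 := by
          rw [← hg, Fin.sum_univ_three]
          simp only [Matrix.cons_val_zero, Matrix.cons_val_one, Matrix.cons_val]
          rw [hgX]
        have hE1 := euler h.hF (t • y z)
        have hE2 := euler h.hG (t • y z)
        rw [hFp, mul_zero] at hE1
        rw [hGp, mul_zero] at hE2
        have hg2 : g 2 = 0 := by
          have h5 : ∑ j, (t • y z) j * (g 0 • grad F (t • y z) + g 1 • grad G (t • y z)
            + g 2 • (Pi.single i (1 : ℂ) : Fin 3 → ℂ)) j = 0 := by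
            rw [hg']; simp
          have h6 : ∑ j, (t • y z) j * (g 0 • grad F (t • y z) + g 1 • grad G (t • y z)
            + g 2 • (Pi.single i (1 : ℂ) : Fin 3 → ℂ)) j
              = g 0 * ∑ j, (t • y z) j * grad F (t • y z) j
                + g 1 * ∑ j, (t • y z) j * grad G (t • y z) j
                + g 2 * ∑ j, (t • y z) j * (Pi.single i (1 : ℂ) : Fin 3 → ℂ) j := by
            simp only [Pi.add_apply, Pi.smul_apply, smul_eq_mul, Fin.sum_univ_three]
            ring
          rw [h6, hE1, hE2] at h5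
          have h7 : ∑ j, (t • y z) j * (Pi.single i (1 : ℂ) : Fin 3 → ℂ) j = 1 := by
            rw [Finset.sum_eq_single i]
            · rw [Pi.single_eq_same, mul_one, hpi]
            · intro j _ hj
              rw [Pi.single_eq_of_ne hj, mul_zero]
            · intro h8; exact absurd (Finset.mem_univ i) h8
          rw [h7] at h5
          simpa using h5
        rw [hg2, zero_smul, add_zero, grad_smul h.hF, grad_smul h.hG, smul_smul, smul_smul] at hg'
        obtain ⟨h8, h9⟩ := (LinearIndependent.pair_iff.1 (h.tr z)) _ _ hg'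
        have hg0 : g 0 = 0 := (mul_eq_zero.1 h8).resolve_right (pow_ne_zero _ ht0)
        have hg1 : g 1 = 0 := (mul_eq_zero.1 h9).resolve_right (pow_ne_zero _ ht0)
        intro k
        fin_cases k
        · exact hg0
        · exact hg1
        · exact hg2
    · intro p hp
      rw [hVdef, Finset.mem_image] at hp
      obtain ⟨z, _, rfl⟩ := hp
      rw [eval_smul_hom hf, hv z, mul_zero]
  rw [hJ, Ideal.mem_span_insert'] at hfJ
  obtain ⟨A, hA⟩ := hfJ
  rw [Ideal.mem_span_insert'] at hA
  obtain ⟨B, hB⟩ := hA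
  rw [Ideal.mem_span_singleton'] at hB
  obtain ⟨D, hD⟩ := hB
  exact homogenize h.hF h.hG hf i (A := -A) (B := -B) (D := D) (by rw [hD]; ring)

/-- Transverse intersections are ideal theoretic complete intersections. -/
theorem Transv.mem (h : Transv y F G a b) (hne : Nonempty ι) {f : R} {d : ℕ}
    (hf : f.IsHomogeneous d) (hv : ∀ z, eval (y z) f = 0) : f ∈ Ideal.span {F, G} := by
  have hF0 : F ≠ 0 := by
    rintro rfl
    obtain ⟨z⟩ := hne
    have h1 := (h.tr z).ne_zero 0
    apply h1
    funext i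
    simp [grad]
  obtain ⟨n0, h0⟩ := h.chart 0 hf hv
  obtain ⟨n1, h1⟩ := h.chart 1 hf hv
  obtain ⟨n2, h2⟩ := h.chart 2 hf hv
  exact unmixed h.isRelPrime hF0 h0 h1 h2

end

end Pool.Agent.Work.MP_31dc3b_ag.Own
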